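import Mathlib

/-!
# Complex projective space as a compact complex manifold
-/

set_option autoImplicit false

open Set Topology Manifold
open scoped ContDiff

set_option linter.unusedVariables false
set_option linter.style.haveILetI false

namespace Pool.Agent.X170.PN

noncomputable section

variable {n : ℕ}

/-- Complex projective `n`-space: the set of the lines through the origin of `ℂ^{n+1}`. -/
def PSpace (n : ℕ) : Type := Projectivization ℂ (Fin (n + 1) → ℂ)

/-- The point `[v]` of projective space, `v ≠ 0`. -/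
def pt (v : {v : Fin (n + 1) → ℂ // v ≠ 0}) : PSpace n := Projectivization.mk ℂ v.1 v.2

/-- The quotient topology of `ℂ^{n+1} ∖ {0}`. -/
instance instTop : TopologicalSpace (PSpace n) := TopologicalSpace.coinduced (pt (n := n)) inferInstance

theorem pt_surj : Function.Surjective (pt (n := n)) := fun p =>
  ⟨⟨Projectivization.rep (K := ℂ) (V := Fin (n + 1) → ℂ) p,
      Projectivization.rep_nonzero (K := ℂ) (V := Fin (n + 1) → ℂ) p⟩,
      Projectivization.mk_rep (K := ℂ) (V := Fin (n + 1) → ℂ) p⟩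

theorem pt_cont : Continuous (pt (n := n)) := continuous_coinduced_rng

theorem pt_quot : IsQuotientMap (pt (n := n)) :=
  (isQuotientMap_iff _).2 ⟨⟨rfl⟩, pt_surj⟩

theorem pt_eq_iff (v w : {v : Fin (n + 1) → ℂ // v ≠ 0}) :
    pt v = pt w ↔ ∃ c : ℂ, c ≠ 0 ∧ ∀ i, v.1 i = c * w.1 i := by
  refine Iff.trans (Projectivization.mk_eq_mk_iff' ℂ _ _ _ _) ?_
  constructor
  · rintro ⟨a, ha⟩
    refine ⟨a, ?_, fun i => ?_⟩
    · rintro rfl
      rw [zero_smul] at ha
      exact v.2 ha.symm
    · rw [← ha]; rfl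
  · rintro ⟨c, hc, h⟩
    exact ⟨c, funext fun i => (h i).symm⟩

theorem pt_eq_iff' (v w : {v : Fin (n + 1) → ℂ // v ≠ 0}) :
    pt v = pt w ↔ ∀ i j, v.1 i * w.1 j = v.1 j * w.1 i := by
  rw [pt_eq_iff]
  constructor
  · rintro ⟨c, -, h⟩ i j
    rw [h i, h j]; ring
  · intro h
    obtain ⟨j, hj⟩ : ∃ j, w.1 j ≠ 0 := by
      by_contra hcon
      push Not at hcon
      exact w.2 (funext hcon)
    have hvj : v.1 j ≠ 0 := by
      intro h0
      apply v.2
      funext i
      have := h i j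
      rw [h0, zero_mul] at this
      exact (mul_eq_zero.1 this).resolve_right hj
    refine ⟨v.1 j / w.1 j, div_ne_zero hvj hj, fun i => ?_⟩
    field_simp
    exact h i j

theorem pt_open : IsOpenMap (pt (n := n)) := by
  intro U hU
  rw [← pt_quot.isOpen_preimage]
  have e : (pt (n := n)) ⁻¹' (pt '' U) = ⋃ c : {c : ℂ // c ≠ 0},
      (fun v : {v : Fin (n + 1) → ℂ // v ≠ 0} =>
        (⟨fun i => c.1 * v.1 i, fun h => v.2 (funext fun i =>
          (mul_eq_zero.1 (congrFun h i)).resolve_left c.2)⟩ : {v : Fin (n + 1) → ℂ // v ≠ 0})) ⁻¹' U := by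
    ext v
    simp only [mem_preimage, mem_iUnion, mem_image]
    constructor
    · rintro ⟨u, hu, huv⟩
      obtain ⟨c, hc, hcu⟩ := (pt_eq_iff _ _).1 huv
      refine ⟨⟨c, hc⟩, ?_⟩
      have e1 : (⟨fun i => c * v.1 i, fun h => v.2 (funext fun i =>
          (mul_eq_zero.1 (congrFun h i)).resolve_left hc)⟩ : {v : Fin (n + 1) → ℂ // v ≠ 0}) = u :=
        Subtype.ext (funext fun i => (hcu i).symm)
      exact e1 ▸ hu
    · rintro ⟨⟨c, hc⟩, h⟩
      exact ⟨_, h, (pt_eq_iff _ _).2 ⟨c, hc, fun i => rfl⟩⟩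
  rw [e]
  refine isOpen_iUnion fun c => hU.preimage (Continuous.subtype_mk ?_ _)
  exact continuous_pi fun i => continuous_const.mul ((continuous_apply i).comp continuous_subtype_val)

instance instT2 : T2Space (PSpace n) := by
  rw [t2Space_iff_of_isOpenQuotientMap ⟨pt_surj, pt_cont, pt_open⟩]
  have e : {q : {v : Fin (n + 1) → ℂ // v ≠ 0} × {v : Fin (n + 1) → ℂ // v ≠ 0} |
      pt q.1 = pt q.2} = ⋂ i, ⋂ j, {q | q.1.1 i * q.2.1 j = q.1.1 j * q.2.1 i} := by
    ext q
    simp only [mem_ofPred_eq, mem_iInter]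
    exact pt_eq_iff' _ _
  rw [e]
  refine isClosed_iInter fun i => isClosed_iInter fun j => isClosed_eq ?_ ?_
  · exact ((continuous_apply i).comp (continuous_subtype_val.comp continuous_fst)).mul
      ((continuous_apply j).comp (continuous_subtype_val.comp continuous_snd))
  · exact ((continuous_apply j).comp (continuous_subtype_val.comp continuous_fst)).mul
      ((continuous_apply i).comp (continuous_subtype_val.comp continuous_snd))

/-- the projection of the unit sphere. -/
def qmap (n : ℕ) : Metric.sphere (0 : Fin (n + 1) → ℂ) 1 → PSpace n := fun v =>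
  pt ⟨v.1, by
    rintro h
    have h1 := v.2
    rw [h] at h1
    simp at h1⟩

theorem qmap_cont : Continuous (qmap n) :=
  pt_cont.comp (Continuous.subtype_mk continuous_subtype_val _)

theorem qmap_surj : Function.Surjective (qmap n) := by
  intro w
  obtain ⟨v, rfl⟩ := pt_surj w
  have hr : 0 < ‖v.1‖ := norm_pos_iff.mpr v.2
  have hnorm : ‖((‖v.1‖⁻¹ : ℝ) : ℂ) • v.1‖ = 1 := by
    rw [norm_smul, Complex.norm_real, norm_inv, norm_norm, inv_mul_cancel₀ hr.ne']
  refine ⟨⟨((‖v.1‖⁻¹ : ℝ) : ℂ) • v.1, by rw [mem_sphere_zero_iff_norm]; exact hnorm⟩, ?_⟩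
  refine (pt_eq_iff _ _).2 ⟨((‖v.1‖⁻¹ : ℝ) : ℂ), ?_, fun i => rfl⟩
  exact_mod_cast (inv_pos.2 hr).ne'

instance instCompact : CompactSpace (PSpace n) := by
  haveI : CompactSpace (Metric.sphere (0 : Fin (n + 1) → ℂ) 1) :=
    isCompact_iff_compactSpace.mp (isCompact_sphere _ _)
  constructor
  rw [← (qmap_surj (n := n)).range_eq, ← Set.image_univ]
  exact isCompact_univ.image qmap_cont

theorem connected (hn : 1 ≤ n) : ConnectedSpace (PSpace n) := by
  have h3 : 1 < Module.rank ℝ (Fin (n + 1) → ℂ) := by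
    rw [← Module.finrank_eq_rank, Module.finrank_pi_fintype]
    simp only [Finset.sum_const, Finset.card_univ, Fintype.card_fin, smul_eq_mul,
      Complex.finrank_real_complex]
    have : 1 < (n + 1) * 2 := by omega
    exact_mod_cast this
  have h4 : IsConnected (Metric.sphere (0 : Fin (n + 1) → ℂ) 1) :=
    isConnected_sphere h3 0 zero_le_one
  haveI : ConnectedSpace (Metric.sphere (0 : Fin (n + 1) → ℂ) 1) :=
    isConnected_iff_connectedSpace.1 h4
  exact (qmap_surj (n := n)).connectedSpace qmap_cont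

/-! ### The charts -/

/-- a representative -/
def rep (p : PSpace n) : Fin (n + 1) → ℂ :=
  Projectivization.rep (K := ℂ) (V := Fin (n + 1) → ℂ) p

theorem rep_pt (v : {v : Fin (n + 1) → ℂ // v ≠ 0}) :
    ∃ a : ℂ, a ≠ 0 ∧ ∀ i, rep (pt v) i = a * v.1 i := by
  obtain ⟨a, ha⟩ := Projectivization.exists_smul_eq_mk_rep ℂ v.1 v.2
  exact ⟨a, a.ne_zero, fun i => (congrFun ha i).symm⟩

/-- the domain of the affine chart `x i ≠ 0` -/
def cdom (n : ℕ) (i : Fin (n + 1)) : Set (PSpace n) := {p | rep p i ≠ 0}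

/-- the affine coordinates `x k / x i`, `k ≠ i` -/
def cmap (i : Fin (n + 1)) (p : PSpace n) : Fin n → ℂ :=
  fun k => rep p (i.succAbove k) / rep p i

theorem ins_ne (i : Fin (n + 1)) (w : Fin n → ℂ) :
    (Fin.insertNth i (1 : ℂ) w : Fin (n + 1) → ℂ) ≠ 0 := by
  intro h
  have h1 := congrFun h i
  rw [Fin.insertNth_apply_same] at h1
  exact one_ne_zero h1

/-- the inverse of the affine chart -/
def cinv (i : Fin (n + 1)) (w : Fin n → ℂ) : PSpace n :=
  pt ⟨Fin.insertNth i (1 : ℂ) w, ins_ne i w⟩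

theorem cmap_pt (i : Fin (n + 1)) (v : {v : Fin (n + 1) → ℂ // v ≠ 0}) :
    cmap i (pt v) = fun k => v.1 (i.succAbove k) / v.1 i := by
  funext k
  obtain ⟨a, ha, h⟩ := rep_pt v
  unfold cmap
  rw [h, h, mul_div_mul_left _ _ ha]

theorem mem_cdom (i : Fin (n + 1)) (v : {v : Fin (n + 1) → ℂ // v ≠ 0}) :
    pt v ∈ cdom n i ↔ v.1 i ≠ 0 := by
  obtain ⟨a, ha, h⟩ := rep_pt v
  show rep (pt v) i ≠ 0 ↔ _
  rw [h]
  exact ⟨right_ne_zero_of_mul, fun h2 => mul_ne_zero ha h2⟩

theorem isOpen_cdom (i : Fin (n + 1)) : IsOpen (cdom n i) := by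
  rw [← pt_quot.isOpen_preimage]
  have h1 : pt ⁻¹' cdom n i = {v | v.1 i ≠ 0} := by
    ext v
    exact mem_cdom i v
  rw [h1]
  exact isOpen_ne_fun ((continuous_apply i).comp continuous_subtype_val) continuous_const

theorem cont_cmap (i : Fin (n + 1)) : ContinuousOn (cmap i) (cdom n i) := by
  rw [pt_quot.continuousOn_isOpen_iff (isOpen_cdom i)]
  have h1 : cmap i ∘ pt = fun v k => v.1 (i.succAbove k) / v.1 i := by
    funext v
    exact cmap_pt i v
  rw [h1, continuousOn_pi]
  intro k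
  have c1 : Continuous fun v : {v : Fin (n + 1) → ℂ // v ≠ 0} => v.1 i :=
    (continuous_apply i).comp continuous_subtype_val
  have c2 : Continuous fun v : {v : Fin (n + 1) → ℂ // v ≠ 0} => v.1 (i.succAbove k) :=
    (continuous_apply _).comp continuous_subtype_val
  exact c2.continuousOn.div c1.continuousOn fun v hv => (mem_cdom i v).1 hv

theorem cont_cinv (i : Fin (n + 1)) : Continuous (cinv (n := n) i) := by
  refine pt_cont.comp (Continuous.subtype_mk ?_ _)
  exact Continuous.finInsertNth i continuous_const continuous_id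

theorem cinv_mem (i : Fin (n + 1)) (w : Fin n → ℂ) : cinv i w ∈ cdom n i := by
  unfold cinv
  rw [mem_cdom]
  simp

theorem c_right (i : Fin (n + 1)) (w : Fin n → ℂ) : cmap i (cinv i w) = w := by
  unfold cinv
  rw [cmap_pt]
  funext k
  simp

theorem c_left (i : Fin (n + 1)) (p : PSpace n) (hp : p ∈ cdom n i) : cinv i (cmap i p) = p := by
  obtain ⟨v, rfl⟩ := pt_surj p
  rw [mem_cdom] at hp
  rw [cmap_pt]
  refine (pt_eq_iff _ _).2 ⟨(v.1 i)⁻¹, inv_ne_zero hp, fun j => ?_⟩
  rcases Fin.eq_self_or_eq_succAbove i j with h | ⟨k, h⟩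
  · subst h
    simp [hp]
  · subst h
    simp [div_eq_inv_mul]

/-- The affine chart `[x] ↦ (x k / x i)_{k ≠ i}`, with domain `{x i ≠ 0}`. -/
def chart (i : Fin (n + 1)) : OpenPartialHomeomorph (PSpace n) (Fin n → ℂ) where
  toFun := cmap i
  invFun := cinv i
  source := cdom n i
  target := univ
  map_source' _ _ := mem_univ _
  map_target' y _ := cinv_mem i _
  left_inv' p hp := c_left i p hp
  right_inv' y _ := c_right i y
  open_source := isOpen_cdom i
  open_target := isOpen_univ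
  continuousOn_toFun := cont_cmap i
  continuousOn_invFun := (cont_cinv i).continuousOn

theorem exists_idx (p : PSpace n) : ∃ i, p ∈ cdom n i := by
  obtain ⟨v, rfl⟩ := pt_surj p
  by_contra h
  push Not at h
  apply v.2
  funext i
  by_contra hi
  exact h i ((mem_cdom i v).2 hi)

/-- The atlas of the `n + 1` affine charts. -/
instance instCharted : ChartedSpace (Fin n → ℂ) (PSpace n) where
  atlas := range chart
  chartAt p := chart (exists_idx p).choose
  mem_chart_source p := (exists_idx p).choose_spec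
  chart_mem_atlas p := mem_range_self _

theorem mem_atlas {e : OpenPartialHomeomorph (PSpace n) (Fin n → ℂ)} :
    e ∈ atlas (Fin n → ℂ) (PSpace n) ↔ ∃ i, chart i = e := Iff.rfl

/-- the linear map `v ↦ (v, 0 at i)` -/
def lin (i : Fin (n + 1)) : (Fin n → ℂ) →L[ℂ] (Fin (n + 1) → ℂ) :=
  LinearMap.toContinuousLinearMap
    { toFun := fun v => Fin.insertNth i (0 : ℂ) v
      map_add' := fun x y => by
        funext j
        rcases Fin.eq_self_or_eq_succAbove i j with h | ⟨k, h⟩
        · subst h; simp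
        · subst h; simp
      map_smul' := fun c x => by
        funext j
        rcases Fin.eq_self_or_eq_succAbove i j with h | ⟨k, h⟩
        · subst h; simp
        · subst h; simp }

theorem lin_apply (i : Fin (n + 1)) (v : Fin n → ℂ) : lin i v = Fin.insertNth i (0 : ℂ) v := rfl

theorem ins_eq (i : Fin (n + 1)) (w : Fin n → ℂ) :
    (Fin.insertNth i (1 : ℂ) w : Fin (n + 1) → ℂ) = lin i w + Pi.single i 1 := by
  funext j
  rcases Fin.eq_self_or_eq_succAbove i j with h | ⟨k, h⟩
  · subst h; simp [lin_apply]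
  · subst h; simp [lin_apply]

theorem trans_apply (i j : Fin (n + 1)) (w : Fin n → ℂ) :
    cmap j (cinv i w) = fun k => (lin i w + Pi.single i 1 : Fin (n + 1) → ℂ) (j.succAbove k) /
      (lin i w + Pi.single i 1 : Fin (n + 1) → ℂ) j := by
  unfold cinv
  rw [cmap_pt]
  simp only [ins_eq]

theorem trans_mem (i j : Fin (n + 1)) (w : Fin n → ℂ) :
    cinv i w ∈ cdom n j ↔ (lin i w + Pi.single i 1 : Fin (n + 1) → ℂ) j ≠ 0 := by
  unfold cinv
  rw [mem_cdom]
  simp only [ins_eq]

theorem hasFDerivAt_trans (i j : Fin (n + 1)) {w : Fin n → ℂ}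
    (hw : (lin i w + Pi.single i 1 : Fin (n + 1) → ℂ) j ≠ 0) (v : Fin n → ℂ) :
    DifferentiableAt ℂ (fun w => cmap j (cinv i w)) w ∧
    fderiv ℂ (fun w => cmap j (cinv i w)) w v = fun k =>
      lin i v (j.succAbove k) / (lin i w + Pi.single i 1 : Fin (n + 1) → ℂ) j -
        (lin i w + Pi.single i 1 : Fin (n + 1) → ℂ) (j.succAbove k) * lin i v j /
          ((lin i w + Pi.single i 1 : Fin (n + 1) → ℂ) j) ^ 2 := by
  have hA : ∀ m : Fin (n + 1), HasFDerivAt
      (fun w : Fin n → ℂ => (lin i w + Pi.single i 1 : Fin (n + 1) → ℂ) m)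
      ((ContinuousLinearMap.proj (R := ℂ) (φ := fun _ : Fin (n + 1) => ℂ) m).comp (lin i)) w := by
    intro m
    exact ((ContinuousLinearMap.proj (R := ℂ) (φ := fun _ : Fin (n + 1) => ℂ) m).comp
      (lin i)).hasFDerivAt.add_const ((Pi.single i 1 : Fin (n + 1) → ℂ) m)
  have hB : ∀ k : Fin n, HasFDerivAt (fun w => cmap j (cinv i w) k)
      ((lin i w + Pi.single i 1 : Fin (n + 1) → ℂ) (j.succAbove k) •
        ((-(((lin i w + Pi.single i 1 : Fin (n + 1) → ℂ) j) ^ 2)⁻¹) •
          ((ContinuousLinearMap.proj (R := ℂ) (φ := fun _ : Fin (n + 1) => ℂ) j).comp (lin i))) +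
        (((lin i w + Pi.single i 1 : Fin (n + 1) → ℂ) j)⁻¹) •
          ((ContinuousLinearMap.proj (R := ℂ) (φ := fun _ : Fin (n + 1) => ℂ)
            (j.succAbove k)).comp (lin i))) w := by
    intro k
    have h1 : (fun w => cmap j (cinv i w) k) = fun w =>
        (lin i w + Pi.single i 1 : Fin (n + 1) → ℂ) (j.succAbove k) *
      ((lin i w + Pi.single i 1 : Fin (n + 1) → ℂ) j)⁻¹ := by
      funext w
      rw [trans_apply]
      exact div_eq_mul_inv _ _
    rw [h1]
    exact (hA (j.succAbove k)).mul ((hasDerivAt_inv hw).comp_hasFDerivAt w (hA j))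
  have hC := hasFDerivAt_pi.2 hB
  refine ⟨hC.differentiableAt, ?_⟩
  rw [show (fun w => cmap j (cinv i w)) = fun x i_1 => cmap j (cinv i x) i_1 from rfl, hC.fderiv]
  funext k
  simp
  field_simp
  ring

instance instManifold : IsManifold 𝓘(ℂ, Fin n → ℂ) ω (PSpace n) := by
  apply isManifold_of_contDiffOn
  rintro e e' ⟨i, rfl⟩ ⟨j, rfl⟩
  have h1 : (𝓘(ℂ, Fin n → ℂ) ∘ (chart i).symm ≫ₕ chart j ∘ 𝓘(ℂ, Fin n → ℂ).symm) =
      fun w => cmap j (cinv i w) := rfl
  rw [h1]
  have hs : (𝓘(ℂ, Fin n → ℂ).symm ⁻¹' ((chart i).symm ≫ₕ chart j).source ∩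
      range 𝓘(ℂ, Fin n → ℂ)) = {w | (lin i w + Pi.single i 1 : Fin (n + 1) → ℂ) j ≠ 0} := by
    ext w
    simp only [modelWithCornersSelf_coe_symm, preimage_id_eq, id_eq, modelWithCornersSelf_coe,
      range_id, inter_univ, mem_ofPred_eq, OpenPartialHomeomorph.trans_source, mem_inter_iff,
      mem_preimage]
    rw [← trans_mem]
    constructor
    · exact fun h => h.2
    · exact fun h => ⟨mem_univ _, h⟩
  rw [hs]
  have hopen : IsOpen {w : Fin n → ℂ | (lin i w + Pi.single i 1 : Fin (n + 1) → ℂ) j ≠ 0} := by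
    refine isOpen_ne_fun ?_ continuous_const
    exact (continuous_apply j).comp ((lin i).continuous.add continuous_const)
  rw [contDiffOn_pi]
  intro k
  have hA : ∀ m : Fin (n + 1), ContDiff ℂ ω
      (fun w : Fin n → ℂ => (lin i w + Pi.single i 1 : Fin (n + 1) → ℂ) m) := by
    intro m
    exact ((ContinuousLinearMap.proj m).comp (lin i) : (Fin n → ℂ) →L[ℂ] ℂ).contDiff.add
      (contDiff_const (c := (Pi.single i 1 : Fin (n + 1) → ℂ) m))
  have h2 : ContDiffOn ℂ ω (fun w => (lin i w + Pi.single i 1 : Fin (n + 1) → ℂ) (j.succAbove k) /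
      (lin i w + Pi.single i 1 : Fin (n + 1) → ℂ) j)
      {w | (lin i w + Pi.single i 1 : Fin (n + 1) → ℂ) j ≠ 0} :=
    (hA _).contDiffOn.div (hA j).contDiffOn fun w hw => hw
  refine h2.congr fun w _ => ?_
  rw [trans_apply]

end

end Pool.Agent.X170.PN
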