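import Pool.Agent.X170.PN.Man
import Pool.Agent.TH598.KG.Stmt

/-!
# The Fubini-Study metric of complex projective space is Kähler
-/

set_option autoImplicit false
set_option linter.unusedVariables false

open Set Topology Manifold Filter
open scoped ContDiff ComplexConjugate ComplexOrder

namespace Pool.Agent.X170.PN

open Pool.Agent.W549.CY (Cn dz HermitianMetric)

noncomputable section

/-- `f` is differentiable at `p` with `∂f/∂z_j = d`. -/
structure HD {n : ℕ} (j : Fin n) (f : Cn n → ℂ) (p : Cn n) (d : ℂ) : Prop where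
  diff : DifferentiableAt ℝ f p
  eq : dz j f p = d

namespace HD

variable {n : ℕ} {j : Fin n} {f g : Cn n → ℂ} {p : Cn n} {a b : ℂ}

theorem of_eq (h : HD j f p a) (e : a = b) : HD j f p b := e ▸ h

theorem const (c : ℂ) : HD j (fun _ => c) p 0 := ⟨differentiableAt_const _, by
  unfold dz
  simp⟩

theorem add (hf : HD j f p a) (hg : HD j g p b) : HD j (fun q => f q + g q) p (a + b) := by
  refine ⟨hf.diff.add hg.diff, ?_⟩
  rw [← hf.eq, ← hg.eq]
  unfold dz
  rw [fderiv_fun_add hf.diff hg.diff]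
  simp only [add_apply]
  ring

theorem neg (hf : HD j f p a) : HD j (fun q => -f q) p (-a) := by
  refine ⟨hf.diff.neg, ?_⟩
  rw [← hf.eq]
  unfold dz
  rw [fderiv_fun_neg]
  simp only [neg_apply]
  ring

theorem sub (hf : HD j f p a) (hg : HD j g p b) : HD j (fun q => f q - g q) p (a - b) := by
  have := hf.add hg.neg
  simpa only [sub_eq_add_neg] using this

theorem mul (hf : HD j f p a) (hg : HD j g p b) :
    HD j (fun q => f q * g q) p (a * g p + f p * b) := by
  refine ⟨hf.diff.mul hg.diff, ?_⟩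
  rw [← hf.eq, ← hg.eq]
  unfold dz
  rw [fderiv_fun_mul hf.diff hg.diff]
  simp only [add_apply, smul_apply, smul_eq_mul]
  ring

theorem inv (hf : HD j f p a) (h : f p ≠ 0) : HD j (fun q => (f q)⁻¹) p (-(a / f p ^ 2)) := by
  have h1 := (hasFDerivAt_inv' (𝕜 := ℝ) h).comp p hf.diff.hasFDerivAt
  refine ⟨h1.differentiableAt, ?_⟩
  rw [← hf.eq]
  unfold dz
  rw [show (fun q => (f q)⁻¹) = (fun x : ℂ => x⁻¹) ∘ f from rfl, h1.fderiv]
  simp only [ContinuousLinearMap.comp_apply, neg_apply,
    ContinuousLinearMap.mulLeftRight_apply]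
  field_simp
  ring

theorem div (hf : HD j f p a) (hg : HD j g p b) (h : g p ≠ 0) :
    HD j (fun q => f q / g q) p ((a * g p - f p * b) / g p ^ 2) := by
  have := hf.mul (hg.inv h)
  simp only [← div_eq_mul_inv] at this
  refine this.of_eq ?_
  field_simp
  ring

theorem pow (hf : HD j f p a) : HD j (fun q => f q ^ 2) p (2 * f p * a) := by
  have := hf.mul hf
  simp only [← pow_two] at this
  refine this.of_eq ?_
  ring

theorem coord (k : Fin n) : HD j (fun q => q k) p (if k = j then 1 else 0) := by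
  have h1 : HasFDerivAt (𝕜 := ℝ) (fun q : Cn n => q k)
      (ContinuousLinearMap.proj (R := ℝ) (φ := fun _ : Fin n => ℂ) k) p :=
    (ContinuousLinearMap.proj (R := ℝ) (φ := fun _ : Fin n => ℂ) k).hasFDerivAt
  refine ⟨h1.differentiableAt, ?_⟩
  unfold dz
  rw [h1.fderiv]
  show (1 / 2) * ((Pi.single j (1 : ℂ) : Cn n) k - Complex.I * (Pi.single j Complex.I : Cn n) k) = _
  by_cases h : k = j
  · subst h
    simp
    norm_num
  · simp [h]

theorem conjc (k : Fin n) : HD j (fun q => conj (q k)) p 0 := by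
  have h1 : HasFDerivAt (𝕜 := ℝ) (fun q : Cn n => conj (q k))
      ((Complex.conjCLE : ℂ →L[ℝ] ℂ).comp
        (ContinuousLinearMap.proj (R := ℝ) (φ := fun _ : Fin n => ℂ) k)) p :=
    ((Complex.conjCLE : ℂ →L[ℝ] ℂ).comp
        (ContinuousLinearMap.proj (R := ℝ) (φ := fun _ : Fin n => ℂ) k)).hasFDerivAt
  refine ⟨h1.differentiableAt, ?_⟩
  unfold dz
  rw [h1.fderiv]
  show (1 / 2) * (conj ((Pi.single j (1 : ℂ) : Cn n) k) -
    Complex.I * conj ((Pi.single j Complex.I : Cn n) k)) = _
  by_cases h : k = j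
  · subst h
    simp
  · simp [h]

theorem sum {ι : Type} (s : Finset ι) {F : ι → Cn n → ℂ} {d : ι → ℂ}
    (h : ∀ i ∈ s, HD j (F i) p (d i)) : HD j (fun q => ∑ i ∈ s, F i q) p (∑ i ∈ s, d i) := by
  classical
  induction s using Finset.induction_on with
  | empty => simpa using const (j := j) (p := p) 0
  | insert i s hi ih =>
    simp only [Finset.sum_insert hi]
    exact (h i (Finset.mem_insert_self _ _)).add (ih fun k hk => h k (Finset.mem_insert_of_mem hk))

end HD

/-- the Hermitian product -/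
def ip {m : ℕ} (v w : Fin m → ℂ) : ℂ := ∑ i, v i * conj (w i)

section ip

variable {m : ℕ}

theorem ip_add_left (u v w : Fin m → ℂ) : ip (u + v) w = ip u w + ip v w := by
  simp [ip, add_mul, Finset.sum_add_distrib]

theorem ip_add_right (u v w : Fin m → ℂ) : ip u (v + w) = ip u v + ip u w := by
  simp [ip, mul_add, Finset.sum_add_distrib]

theorem ip_smul_left (c : ℂ) (v w : Fin m → ℂ) : ip (c • v) w = c * ip v w := by
  simp [ip, Finset.mul_sum, mul_assoc]

theorem ip_smul_right (c : ℂ) (v w : Fin m → ℂ) : ip v (c • w) = conj c * ip v w := by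
  simp only [ip, Finset.mul_sum, Pi.smul_apply, smul_eq_mul, map_mul]
  exact Finset.sum_congr rfl fun i _ => by ring

theorem ip_self (v : Fin m → ℂ) : ip v v = ((∑ i, ‖v i‖ ^ 2 : ℝ) : ℂ) := by
  unfold ip
  push_cast
  refine Finset.sum_congr rfl fun i _ => ?_
  rw [Complex.mul_conj, Complex.normSq_eq_norm_sq]
  push_cast
  rfl

theorem ip_conj (v w : Fin m → ℂ) : conj (ip v w) = ip w v := by
  simp only [ip, map_sum, map_mul, Complex.conj_conj]
  exact Finset.sum_congr rfl fun i _ => mul_comm _ _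

/-- The Fubini-Study form in homogeneous coordinates. -/
def HH (Z V W : Fin m → ℂ) : ℂ := (ip Z Z * ip V W - ip V Z * ip Z W) / (ip Z Z) ^ 2

theorem HH_inv {c : ℂ} (hc : c ≠ 0) (a b : ℂ) (Z V W : Fin m → ℂ) :
    HH (c • Z) (c • V + a • Z) (c • W + b • Z) = HH Z V W := by
  have hc' : conj c ≠ 0 := (map_ne_zero _).2 hc
  unfold HH
  simp only [ip_add_left, ip_add_right, ip_smul_left, ip_smul_right]
  by_cases hz : ip Z Z = 0
  · simp [hz]
  field_simp
  ring

end ip

variable {n : ℕ}

theorem ip_lin (i : Fin (n + 1)) (v w : Fin n → ℂ) : ip (lin i v) (lin i w) = ip v w := by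
  unfold ip
  rw [Fin.sum_univ_succAbove _ i]
  simp [lin_apply]

theorem ip_lin_single (i : Fin (n + 1)) (v : Fin n → ℂ) : ip (lin i v) (Pi.single i 1) = 0 := by
  unfold ip
  rw [Fin.sum_univ_succAbove _ i]
  simp [lin_apply]

theorem ip_single_lin (i : Fin (n + 1)) (v : Fin n → ℂ) : ip (Pi.single i 1) (lin i v) = 0 := by
  rw [← ip_conj, ip_lin_single, map_zero]

theorem ip_single_single (i : Fin (n + 1)) :
    ip (Pi.single i 1 : Fin (n + 1) → ℂ) (Pi.single i 1) = 1 := by
  unfold ip
  rw [Fin.sum_univ_succAbove _ i]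
  simp

/-- The Fubini-Study form in an affine chart. -/
def hform (z v w : Fin n → ℂ) : ℂ :=
  ((1 + ip z z) * ip v w - ip v z * ip z w) / (1 + ip z z) ^ 2

theorem HH_chart (i : Fin (n + 1)) (z v w : Fin n → ℂ) :
    HH (lin i z + Pi.single i 1) (lin i v) (lin i w) = hform z v w := by
  unfold HH hform
  simp only [ip_add_left, ip_add_right, ip_lin, ip_lin_single, ip_single_lin, ip_single_single]
  ring

/-- The coefficients `g_{j k̄} = ∂² log (1 + |z|²) / ∂z_j ∂z̄_k` of the Fubini-Study metric in the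
affine charts. -/
def fs (z : Cn n) : Matrix (Fin n) (Fin n) ℂ := Matrix.of fun j k =>
  (if j = k then 1 else 0) / (1 + ip z z) - conj (z j) * z k / (1 + ip z z) ^ 2

theorem one_add_ip (z : Fin n → ℂ) : 1 + ip z z = ((1 + ∑ i, ‖z i‖ ^ 2 : ℝ) : ℂ) := by
  rw [ip_self]; push_cast; rfl

theorem N_pos (z : Fin n → ℂ) : 0 < 1 + ∑ i, ‖z i‖ ^ 2 := by
  have : 0 ≤ ∑ i, ‖z i‖ ^ 2 := Finset.sum_nonneg fun i _ => by positivity
  linarith

theorem N_ne (z : Fin n → ℂ) : 1 + ip z z ≠ 0 := by
  rw [one_add_ip]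
  exact_mod_cast (N_pos z).ne'

theorem sum_fs (z v w : Fin n → ℂ) :
    ∑ a, ∑ b, v a * conj (w b) * fs z a b = hform z v w := by
  have hN := N_ne z
  have h1 : ∀ a b, v a * conj (w b) * fs z a b =
      (if a = b then v a * conj (w b) / (1 + ip z z) else 0) -
        (v a * conj (z a)) * (z b * conj (w b)) / (1 + ip z z) ^ 2 := by
    intro a b
    simp only [fs, Matrix.of_apply]
    by_cases h : a = b
    · rw [if_pos h, if_pos h]
      field_simp
    · rw [if_neg h, if_neg h]
      field_simp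
      ring
  simp only [h1, Finset.sum_sub_distrib, Finset.sum_ite_eq, Finset.mem_univ, if_true]
  unfold hform
  have h2 : ∑ a, ∑ b, v a * conj (z a) * (z b * conj (w b)) / (1 + ip z z) ^ 2 =
      ip v z * ip z w / (1 + ip z z) ^ 2 := by
    unfold ip
    rw [Finset.sum_mul_sum, Finset.sum_div]
    exact Finset.sum_congr rfl fun a _ => by rw [Finset.sum_div]
  have h3 : ∑ a, v a * conj (w a) / (1 + ip z z) = ip v w / (1 + ip z z) := by
    unfold ip
    rw [Finset.sum_div]
  rw [h2, h3]
  field_simp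

theorem fs_eq (z : Fin n → ℂ) (j k : Fin n) :
    fs z j k = hform z (Pi.single j 1) (Pi.single k 1) := by
  rw [← sum_fs]
  rw [Finset.sum_eq_single j, Finset.sum_eq_single k]
  · simp
  · intro b _ hb
    simp [hb]
  · simp
  · intro a _ ha
    simp [ha]
  · simp

theorem fs_contDiff (j k : Fin n) : ContDiff ℝ ∞ (fun z : Cn n => fs z j k) := by
  have hc : ∀ i : Fin n, ContDiff ℝ ∞ (fun z : Cn n => z i) := fun i =>
    (ContinuousLinearMap.proj (R := ℝ) (φ := fun _ : Fin n => ℂ) i).contDiff
  have hd : ∀ i : Fin n, ContDiff ℝ ∞ (fun z : Cn n => conj (z i)) := fun i =>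
    Complex.conjCLE.contDiff.comp (hc i)
  have hN : ContDiff ℝ ∞ (fun z : Cn n => 1 + ip z z) := by
    unfold ip
    exact contDiff_const.add (ContDiff.sum fun i _ => (hc i).mul (hd i))
  simp only [fs, Matrix.of_apply, div_eq_mul_inv]
  exact (contDiff_const.mul (hN.inv N_ne)).sub (((hd j).mul (hc k)).mul ((hN.pow 2).inv
    fun z => pow_ne_zero 2 (N_ne z)))

theorem fs_posDef (z : Fin n → ℂ) : (fs z).PosDef := by
  rw [Matrix.posDef_iff_dotProduct_mulVec]
  refine ⟨?_, fun {x} hx => ?_⟩
  · ext j k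
    simp only [Matrix.conjTranspose_apply, fs, Matrix.of_apply, RCLike.star_def]
    have e : conj (ip z z) = ip z z := ip_conj z z
    by_cases h : j = k
    · subst h
      simp [e, mul_comm]
    · simp [e, h, Ne.symm h, mul_comm]
  · have h1 : star x ⬝ᵥ ((fs z).mulVec x) = hform z (conj x) (conj x) := by
      rw [← sum_fs]
      simp only [dotProduct, Matrix.mulVec, Finset.mul_sum, Pi.star_apply, RCLike.star_def]
      refine Finset.sum_congr rfl fun a _ => Finset.sum_congr rfl fun b _ => ?_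
      simp
      ring
    rw [h1]
    set u : Fin n → ℂ := conj x with hu
    have hu0 : u ≠ 0 := by
      intro h
      apply hx
      funext i
      have := congrFun h i
      simpa [hu] using this
    set S : ℝ := ∑ i, ‖z i‖ ^ 2 with hS
    set T : ℝ := ∑ i, ‖u i‖ ^ 2 with hT
    have hT0 : 0 < T := by
      obtain ⟨i, hi⟩ : ∃ i, u i ≠ 0 := by
        by_contra hcon
        push Not at hcon
        exact hu0 (funext hcon)
      exact lt_of_lt_of_le (by positivity : 0 < ‖u i‖ ^ 2)
        (Finset.single_le_sum (f := fun i => ‖u i‖ ^ 2) (fun i _ => by positivity)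
          (Finset.mem_univ i))
    have hCS : ‖ip u z‖ ^ 2 ≤ T * S := by
      have h2 : ‖ip u z‖ ≤ ∑ i, ‖u i‖ * ‖z i‖ := by
        unfold ip
        refine (norm_sum_le _ _).trans (Finset.sum_le_sum fun i _ => ?_)
        rw [norm_mul, Complex.norm_conj]
      have h3 := Finset.sum_mul_sq_le_sq_mul_sq Finset.univ (fun i => ‖u i‖) (fun i => ‖z i‖)
      calc ‖ip u z‖ ^ 2 ≤ (∑ i, ‖u i‖ * ‖z i‖) ^ 2 := by gcongr
        _ ≤ _ := h3
    have h4 : hform z u u = (((1 + S) * T - ‖ip u z‖ ^ 2) / (1 + S) ^ 2 : ℝ) := by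
      unfold hform
      have e1 : ip u z * ip z u = ((‖ip u z‖ ^ 2 : ℝ) : ℂ) := by
        rw [← ip_conj u z, Complex.mul_conj, Complex.normSq_eq_norm_sq]
      rw [e1, ip_self z, ip_self u, ← hS, ← hT]
      push_cast
      rfl
    rw [h4]
    have h5 : 0 < ((1 + S) * T - ‖ip u z‖ ^ 2) / (1 + S) ^ 2 := by
      apply div_pos
      · nlinarith
      · have := N_pos z
        positivity
    exact_mod_cast h5

theorem fs_dz (i j k : Fin n) (z : Cn n) : HD i (fun w => fs w j k) z
    (-(((if j = k then 1 else 0) * conj (z i) + (if i = k then 1 else 0) * conj (z j)) /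
      (1 + ip z z) ^ 2) + 2 * conj (z i) * conj (z j) * z k / (1 + ip z z) ^ 3) := by
  have hN := N_ne z
  have h1 : HD i (fun w : Cn n => 1 + ip w w) z (conj (z i)) := by
    unfold ip
    refine ((HD.const 1).add (HD.sum Finset.univ fun k _ => (HD.coord k).mul (HD.conjc k))).of_eq ?_
    simp
  have h2 : HD i (fun w : Cn n => (if j = k then 1 else 0) / (1 + ip w w) -
      conj (w j) * w k / (1 + ip w w) ^ 2) z _ :=
    ((HD.const _).div h1 hN).sub (((HD.conjc j).mul (HD.coord k)).div h1.pow (pow_ne_zero 2 hN))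
  simp only [fs, Matrix.of_apply]
  refine h2.of_eq ?_
  by_cases hjk : j = k <;> by_cases hik : i = k
  · simp only [hjk, hik, if_true]
    field_simp
    ring
  · simp only [hjk, if_true, if_neg hik, if_neg (Ne.symm hik)]
    field_simp
    ring
  · simp only [if_neg hjk, hik, if_true]
    field_simp
    ring
  · simp only [if_neg hjk, if_neg hik, if_neg (Ne.symm hik)]
    field_simp
    ring

/-- The Fubini-Study metric of projective space. -/
def fubiniStudy (n : ℕ) : HermitianMetric n (PSpace n) where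
  g _ := fs
  smooth e _ j k := (fs_contDiff j k).contDiffOn
  posDef e _ z _ := fs_posDef z
  transform := by
    rintro e ⟨i, rfl⟩ e' ⟨i', rfl⟩ x ⟨hx, hx'⟩ j k
    set z : Fin n → ℂ := cmap i x with hz
    have hzx : cinv i z = x := c_left i x hx
    have hw : (lin i z + Pi.single i 1 : Fin (n + 1) → ℂ) i' ≠ 0 := by
      rw [← trans_mem, hzx]; exact hx'
    set c : ℂ := ((lin i z + Pi.single i 1 : Fin (n + 1) → ℂ) i')⁻¹ with hc
    have hc0 : c ≠ 0 := inv_ne_zero hw
    have ez : lin i' (cmap i' x) + Pi.single i' 1 = c • (lin i z + Pi.single i 1) := by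
      rw [← hzx, trans_apply]
      funext m
      rcases Fin.eq_self_or_eq_succAbove i' m with h | ⟨l, h⟩
      · subst h
        simp only [lin_apply, Pi.add_apply, Fin.insertNth_apply_same, Pi.single_eq_same,
          Pi.smul_apply, smul_eq_mul, zero_add]
        rw [hc]
        exact (inv_mul_cancel₀ hw).symm
      · subst h
        rw [lin_apply]
        simp only [Pi.add_apply, Fin.insertNth_apply_succAbove, Pi.smul_apply, smul_eq_mul]
        rw [Pi.single_eq_of_ne (Fin.succAbove_ne i' l), add_zero, hc, div_eq_inv_mul]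
        rfl
    have ev : ∀ v : Fin n → ℂ, lin i' (fderiv ℂ (fun w => cmap i' (cinv i w)) z v) =
        c • lin i v + (-(lin i v i' * c ^ 2)) • (lin i z + Pi.single i 1) := by
      intro v
      rw [(hasFDerivAt_trans i i' hw v).2]
      funext m
      rcases Fin.eq_self_or_eq_succAbove i' m with h | ⟨l, h⟩
      · subst h
        rw [lin_apply]
        simp only [Pi.add_apply, Fin.insertNth_apply_same, Pi.smul_apply, smul_eq_mul]
        have e1 : (lin i z m + (Pi.single i 1 : Fin (n + 1) → ℂ) m) = c⁻¹ := by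
          rw [hc, inv_inv]; rfl
        rw [e1]
        field_simp
        ring
      · subst h
        rw [lin_apply]
        simp only [Fin.insertNth_apply_succAbove]
        have e1 : (lin i z + Pi.single i 1 : Fin (n + 1) → ℂ) i' = c⁻¹ := by rw [hc, inv_inv]
        rw [e1]
        simp only [Pi.add_apply, Pi.smul_apply, smul_eq_mul]
        field_simp
        ring
    have hD : (chart i' ∘ (chart i).symm : (Fin n → ℂ) → (Fin n → ℂ)) =
      fun w => cmap i' (cinv i w) := rfl
    show fs z j k = ∑ a, ∑ b, fderiv ℂ (chart i' ∘ (chart i).symm) z (Pi.single j 1) a *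
      conj (fderiv ℂ (chart i' ∘ (chart i).symm) z (Pi.single k 1) b) * fs (cmap i' x) a b
    rw [hD, sum_fs, ← HH_chart i', ez, ev, ev, HH_inv hc0, HH_chart, fs_eq]

theorem fubiniStudy_isKahler (n : ℕ) : Pool.Agent.TH598.IsKahler (fubiniStudy n) := by
  rintro e - z - i j k
  show dz i (fun w => fs w j k) z = dz j (fun w => fs w i k) z
  rw [(fs_dz i j k z).eq, (fs_dz j i k z).eq]
  ring

end

end Pool.Agent.X170.PN
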